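import Pool.Agent.D0H43.L9.StmS
import Pool.Agent.D0H43.L3.Supp
import Pool.Agent.Y100.CT.CUB3

/-!
# Project L9, module N3 SELCN (helper10): local solutions at three

`D = 9 ω ^ k (1 + 3 r) = lam ^ 3 D'`, `D' = lam ω ^ k (1 + 3 r)`; with `u ^ 2 = u + D'` the solutions
come from the points `(u, u)` and `(u, - u ^ 2)` of `y ^ 2 + D' y = x ^ 3`: `B = ω ^ b (1 + 3 β)` and
`B ^ 2 ± B D' = 1` modulo `9`.
-/

set_option autoImplicit false

namespace Pool.Agent.D0H10.L9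

open Pool.Agent.Y692.QS
open Pool.Agent.Y715.T.Gi Pool.Agent.Y715.T.Nr Pool.Agent.Y715.T.Df Pool.Agent.Y715.T.Ell
open Pool.Agent.Y715.T.Red Pool.Agent.Y715.T.Thr
open Pool.Agent.Y703.CT
open Pool.Agent.Y100.CT.CUB3 (root norm_nine)
open Pool.Agent.D0H43.L3 (yq)
open Pool.Agent.D0H43.L9
open Pool.Agent.N883.FF (nq)

namespace Cub3N

lemma three_dvd {z : Ei} (h1 : (3 : ℤ) ∣ z.re) (h2 : (3 : ℤ) ∣ z.im) : ∃ m : Ei, z = 3 * m := by
  have : ((3 : ℤ) : Ei) ∣ z := int_dvd.2 ⟨h1, h2⟩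
  obtain ⟨m, hm⟩ := this
  exact ⟨m, by rw [hm]; norm_num⟩

lemma lam_w : (lam : Ei) = 1 + 2 * w := by decide

/-- the congruence modulo nine -/
lemma main (k b : ZMod 3) (β r : Ei)
    (h1 : nq (1 + 3 * β) = k * b) (h2 : b * nq (1 + 3 * r) = qN k (1 + 3 * β)) :
    ∃ (ε : Ei) (z : Ei), ε ^ 3 = ε ∧ (w ^ b.val * (1 + 3 * β)) ^ 2 +
      (w ^ b.val * (1 + 3 * β)) * (lam * (w ^ k.val * (1 + 3 * r))) * ε = 1 + 9 * z := by
  unfold qN at h2
  rw [h1] at h2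
  rw [Pool.Agent.D0H43.L3.Chi.nq_one] at h1 h2
  rw [Pool.Agent.D0H43.L3.Chi.yq_one] at h2
  obtain ⟨x, y⟩ := β
  obtain ⟨p, q⟩ := r
  simp only at h1 h2
  have hw := w_sq
  have hl := lam_w
  have hk : ∀ k : ZMod 3, k = 0 ∨ k = 1 ∨ k = 2 := by decide
  -- the linear conditions over the integers
  have v0 : (0 : ZMod 3).val = 0 := rfl
  have v1 : (1 : ZMod 3).val = 1 := rfl
  have v2 : (2 : ZMod 3).val = 2 := rfl
  rcases hk k with rfl | rfl | rfl <;> rcases hk b with rfl | rfl | rfl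
  · -- k = 0, b = 0
    have i1 : ((x + y + 0 : ℤ) : ZMod 3) = 0 := by push_cast at h1 ⊢; linear_combination -h1
    have i2 : ((0 * (p + q) + 0 - y : ℤ) : ZMod 3) = 0 := by
      push_cast at h2 ⊢; linear_combination -h2
    rw [ZMod.intCast_zmod_eq_zero_iff_dvd] at i1 i2
    have d0 : (⟨0, 0⟩ : Ei) = (0) + (0) * w := by decide
    have d1 : (⟨2, 0⟩ : Ei) = (2) + (0) * w := by decide
    have d2 : (⟨0, 0⟩ : Ei) = (0) + (0) * w := by decide
    obtain ⟨m, hm⟩ := three_dvd (z := (⟨0, 0⟩ : Ei) + (⟨2, 0⟩ : Ei) * (⟨x, y⟩ : Ei) +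
        (⟨0, 0⟩ : Ei) * (⟨p, q⟩ : Ei))
      (by simp only [mul_re, QuadraticAlgebra.re_add]; omega)
      (by simp only [mul_im, QuadraticAlgebra.im_add]; omega)
    simp only [d0, d1, d2] at hm
    generalize (⟨x, y⟩ : Ei) = β at hm ⊢
    generalize (⟨p, q⟩ : Ei) = r at hm ⊢
    refine ⟨0, m + ((1) * β ^ 2), by ring, ?_⟩
    rw [v0, hl]
    linear_combination 3 * hm + (0) * hw
  · -- k = 0, b = 1
    have i1 : ((x + y + 0 : ℤ) : ZMod 3) = 0 := by push_cast at h1 ⊢; linear_combination -h1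
    have i2 : ((1 * (p + q) + 0 - y : ℤ) : ZMod 3) = 0 := by
      push_cast at h2 ⊢; linear_combination -h2
    rw [ZMod.intCast_zmod_eq_zero_iff_dvd] at i1 i2
    have d0 : (⟨0, 0⟩ : Ei) = (0) + (0) * w := by decide
    have d1 : (⟨0, -1⟩ : Ei) = (0) + (-1) * w := by decide
    have d2 : (⟨2, 1⟩ : Ei) = (2) + (1) * w := by decide
    obtain ⟨m, hm⟩ := three_dvd (z := (⟨0, 0⟩ : Ei) + (⟨0, -1⟩ : Ei) * (⟨x, y⟩ : Ei) +
        (⟨2, 1⟩ : Ei) * (⟨p, q⟩ : Ei))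
      (by simp only [mul_re, QuadraticAlgebra.re_add]; omega)
      (by simp only [mul_im, QuadraticAlgebra.im_add]; omega)
    simp only [d0, d1, d2] at hm
    generalize (⟨x, y⟩ : Ei) = β at hm ⊢
    generalize (⟨p, q⟩ : Ei) = r at hm ⊢
    refine ⟨-1, m + ((2) * β * r + (-1) * β ^ 2 + (1) * w * β * r + (-1) * w * β ^ 2), by ring, ?_⟩
    rw [v0, v1, hl]
    linear_combination 3 * hm + ((-1) + (-6) * r + (-18) * β * r + (9) * β ^ 2) * hw
  · -- k = 0, b = 2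
    have i1 : ((x + y + 0 : ℤ) : ZMod 3) = 0 := by push_cast at h1 ⊢; linear_combination -h1
    have i2 : ((2 * (p + q) + 0 - y : ℤ) : ZMod 3) = 0 := by
      push_cast at h2 ⊢; linear_combination -h2
    rw [ZMod.intCast_zmod_eq_zero_iff_dvd] at i1 i2
    have d0 : (⟨0, 0⟩ : Ei) = (0) + (0) * w := by decide
    have d1 : (⟨1, 1⟩ : Ei) = (1) + (1) * w := by decide
    have d2 : (⟨1, -1⟩ : Ei) = (1) + (-1) * w := by decide
    obtain ⟨m, hm⟩ := three_dvd (z := (⟨0, 0⟩ : Ei) + (⟨1, 1⟩ : Ei) * (⟨x, y⟩ : Ei) +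
        (⟨1, -1⟩ : Ei) * (⟨p, q⟩ : Ei))
      (by simp only [mul_re, QuadraticAlgebra.re_add]; omega)
      (by simp only [mul_im, QuadraticAlgebra.im_add]; omega)
    simp only [d0, d1, d2] at hm
    generalize (⟨x, y⟩ : Ei) = β at hm ⊢
    generalize (⟨p, q⟩ : Ei) = r at hm ⊢
    refine ⟨1, m + ((1) * β * r + (-1) * w * β * r + (1) * w * β ^ 2), by ring, ?_⟩
    rw [v0, v2, hl]
    linear_combination 3 * hm + ((-1) + (-3) * r + (-3) * β + (-9) * β * r + (1) * w + (6) * w * r + (18) * w * β * r + (-9) * w * β ^ 2 + (1) * w ^ 2 + (6) * w ^ 2 * β + (9) * w ^ 2 * β ^ 2) * hw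
  · -- k = 1, b = 0
    have i1 : ((x + y + 0 : ℤ) : ZMod 3) = 0 := by push_cast at h1 ⊢; linear_combination -h1
    have i2 : ((0 * (p + q) + 0 - y : ℤ) : ZMod 3) = 0 := by
      push_cast at h2 ⊢; linear_combination -h2
    rw [ZMod.intCast_zmod_eq_zero_iff_dvd] at i1 i2
    have d0 : (⟨0, 0⟩ : Ei) = (0) + (0) * w := by decide
    have d1 : (⟨2, 0⟩ : Ei) = (2) + (0) * w := by decide
    have d2 : (⟨0, 0⟩ : Ei) = (0) + (0) * w := by decide
    obtain ⟨m, hm⟩ := three_dvd (z := (⟨0, 0⟩ : Ei) + (⟨2, 0⟩ : Ei) * (⟨x, y⟩ : Ei) +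
        (⟨0, 0⟩ : Ei) * (⟨p, q⟩ : Ei))
      (by simp only [mul_re, QuadraticAlgebra.re_add]; omega)
      (by simp only [mul_im, QuadraticAlgebra.im_add]; omega)
    simp only [d0, d1, d2] at hm
    generalize (⟨x, y⟩ : Ei) = β at hm ⊢
    generalize (⟨p, q⟩ : Ei) = r at hm ⊢
    refine ⟨0, m + ((1) * β ^ 2), by ring, ?_⟩
    rw [v1, v0, hl]
    linear_combination 3 * hm + (0) * hw
  · -- k = 1, b = 1
    have i1 : ((x + y + 1 : ℤ) : ZMod 3) = 0 := by push_cast at h1 ⊢; linear_combination -h1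
    have i2 : ((1 * (p + q) + 1 - y : ℤ) : ZMod 3) = 0 := by
      push_cast at h2 ⊢; linear_combination -h2
    rw [ZMod.intCast_zmod_eq_zero_iff_dvd] at i1 i2
    have d0 : (⟨-1, 0⟩ : Ei) = (-1) + (0) * w := by decide
    have d1 : (⟨-3, -1⟩ : Ei) = (-3) + (-1) * w := by decide
    have d2 : (⟨-1, 1⟩ : Ei) = (-1) + (1) * w := by decide
    obtain ⟨m, hm⟩ := three_dvd (z := (⟨-1, 0⟩ : Ei) + (⟨-3, -1⟩ : Ei) * (⟨x, y⟩ : Ei) +
        (⟨-1, 1⟩ : Ei) * (⟨p, q⟩ : Ei))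
      (by simp only [mul_re, QuadraticAlgebra.re_add]; omega)
      (by simp only [mul_im, QuadraticAlgebra.im_add]; omega)
    simp only [d0, d1, d2] at hm
    generalize (⟨x, y⟩ : Ei) = β at hm ⊢
    generalize (⟨p, q⟩ : Ei) = r at hm ⊢
    refine ⟨-1, m + ((-1) * β * r + (-1) * β ^ 2 + (1) * w * β * r + (-1) * w * β ^ 2), by ring, ?_⟩
    rw [v1, hl]
    linear_combination 3 * hm + ((2) + (3) * r + (9) * β + (9) * β * r + (9) * β ^ 2 + (-2) * w + (-6) * w * r + (-6) * w * β + (-18) * w * β * r) * hw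
  · -- k = 1, b = 2
    have i1 : ((x + y + 2 : ℤ) : ZMod 3) = 0 := by push_cast at h1 ⊢; linear_combination -h1
    have i2 : ((2 * (p + q) + 2 - y : ℤ) : ZMod 3) = 0 := by
      push_cast at h2 ⊢; linear_combination -h2
    rw [ZMod.intCast_zmod_eq_zero_iff_dvd] at i1 i2
    have d0 : (⟨0, 1⟩ : Ei) = (0) + (1) * w := by decide
    have d1 : (⟨1, 4⟩ : Ei) = (1) + (4) * w := by decide
    have d2 : (⟨1, 2⟩ : Ei) = (1) + (2) * w := by decide
    obtain ⟨m, hm⟩ := three_dvd (z := (⟨0, 1⟩ : Ei) + (⟨1, 4⟩ : Ei) * (⟨x, y⟩ : Ei) +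
        (⟨1, 2⟩ : Ei) * (⟨p, q⟩ : Ei))
      (by simp only [mul_re, QuadraticAlgebra.re_add]; omega)
      (by simp only [mul_im, QuadraticAlgebra.im_add]; omega)
    simp only [d0, d1, d2] at hm
    generalize (⟨x, y⟩ : Ei) = β at hm ⊢
    generalize (⟨p, q⟩ : Ei) = r at hm ⊢
    refine ⟨1, m + ((1) * β * r + (2) * w * β * r + (1) * w * β ^ 2), by ring, ?_⟩
    rw [v1, v2, hl]
    linear_combination 3 * hm + ((-1) + (-3) * r + (-3) * β + (-9) * β * r + (-2) * w + (-3) * w * r + (-9) * w * β + (-9) * w * β * r + (-9) * w * β ^ 2 + (3) * w ^ 2 + (6) * w ^ 2 * r + (12) * w ^ 2 * β + (18) * w ^ 2 * β * r + (9) * w ^ 2 * β ^ 2) * hw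
  · -- k = 2, b = 0
    have i1 : ((x + y + 0 : ℤ) : ZMod 3) = 0 := by push_cast at h1 ⊢; linear_combination -h1
    have i2 : ((0 * (p + q) + 0 - y : ℤ) : ZMod 3) = 0 := by
      push_cast at h2 ⊢; linear_combination -h2
    rw [ZMod.intCast_zmod_eq_zero_iff_dvd] at i1 i2
    have d0 : (⟨0, 0⟩ : Ei) = (0) + (0) * w := by decide
    have d1 : (⟨2, 0⟩ : Ei) = (2) + (0) * w := by decide
    have d2 : (⟨0, 0⟩ : Ei) = (0) + (0) * w := by decide
    obtain ⟨m, hm⟩ := three_dvd (z := (⟨0, 0⟩ : Ei) + (⟨2, 0⟩ : Ei) * (⟨x, y⟩ : Ei) +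
        (⟨0, 0⟩ : Ei) * (⟨p, q⟩ : Ei))
      (by simp only [mul_re, QuadraticAlgebra.re_add]; omega)
      (by simp only [mul_im, QuadraticAlgebra.im_add]; omega)
    simp only [d0, d1, d2] at hm
    generalize (⟨x, y⟩ : Ei) = β at hm ⊢
    generalize (⟨p, q⟩ : Ei) = r at hm ⊢
    refine ⟨0, m + ((1) * β ^ 2), by ring, ?_⟩
    rw [v2, v0, hl]
    linear_combination 3 * hm + (0) * hw
  · -- k = 2, b = 1
    have i1 : ((x + y + 2 : ℤ) : ZMod 3) = 0 := by push_cast at h1 ⊢; linear_combination -h1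
    have i2 : ((1 * (p + q) + 4 - y : ℤ) : ZMod 3) = 0 := by
      push_cast at h2 ⊢; linear_combination -h2
    rw [ZMod.intCast_zmod_eq_zero_iff_dvd] at i1 i2
    have d0 : (⟨-1, -1⟩ : Ei) = (-1) + (-1) * w := by decide
    have d1 : (⟨-3, -4⟩ : Ei) = (-3) + (-4) * w := by decide
    have d2 : (⟨-1, -2⟩ : Ei) = (-1) + (-2) * w := by decide
    obtain ⟨m, hm⟩ := three_dvd (z := (⟨-1, -1⟩ : Ei) + (⟨-3, -4⟩ : Ei) * (⟨x, y⟩ : Ei) +
        (⟨-1, -2⟩ : Ei) * (⟨p, q⟩ : Ei))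
      (by simp only [mul_re, QuadraticAlgebra.re_add]; omega)
      (by simp only [mul_im, QuadraticAlgebra.im_add]; omega)
    simp only [d0, d1, d2] at hm
    generalize (⟨x, y⟩ : Ei) = β at hm ⊢
    generalize (⟨p, q⟩ : Ei) = r at hm ⊢
    refine ⟨-1, m + ((-1) * β * r + (-1) * β ^ 2 + (-2) * w * β * r + (-1) * w * β ^ 2), by ring, ?_⟩
    rw [v2, v1, hl]
    linear_combination 3 * hm + ((2) + (3) * r + (9) * β + (9) * β * r + (9) * β ^ 2 + (1) * w + (3) * w * r + (3) * w * β + (9) * w * β * r + (-2) * w ^ 2 + (-6) * w ^ 2 * r + (-6) * w ^ 2 * β + (-18) * w ^ 2 * β * r) * hw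
  · -- k = 2, b = 2
    have i1 : ((x + y + 4 : ℤ) : ZMod 3) = 0 := by push_cast at h1 ⊢; linear_combination -h1
    have i2 : ((2 * (p + q) + 8 - y : ℤ) : ZMod 3) = 0 := by
      push_cast at h2 ⊢; linear_combination -h2
    rw [ZMod.intCast_zmod_eq_zero_iff_dvd] at i1 i2
    have d0 : (⟨-1, 0⟩ : Ei) = (-1) + (0) * w := by decide
    have d1 : (⟨-2, 1⟩ : Ei) = (-2) + (1) * w := by decide
    have d2 : (⟨-2, -1⟩ : Ei) = (-2) + (-1) * w := by decide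
    obtain ⟨m, hm⟩ := three_dvd (z := (⟨-1, 0⟩ : Ei) + (⟨-2, 1⟩ : Ei) * (⟨x, y⟩ : Ei) +
        (⟨-2, -1⟩ : Ei) * (⟨p, q⟩ : Ei))
      (by simp only [mul_re, QuadraticAlgebra.re_add]; omega)
      (by simp only [mul_im, QuadraticAlgebra.im_add]; omega)
    simp only [d0, d1, d2] at hm
    generalize (⟨x, y⟩ : Ei) = β at hm ⊢
    generalize (⟨p, q⟩ : Ei) = r at hm ⊢
    refine ⟨1, m + ((-2) * β * r + (-1) * w * β * r + (1) * w * β ^ 2), by ring, ?_⟩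
    rw [v2, hl]
    linear_combination 3 * hm + ((2) + (6) * r + (6) * β + (18) * β * r + (-2) * w + (-3) * w * r + (-9) * w * β + (-9) * w * β * r + (-9) * w * β ^ 2 + (-3) * w ^ 2 * r + (3) * w ^ 2 * β + (-9) * w ^ 2 * β * r + (9) * w ^ 2 * β ^ 2 + (2) * w ^ 3 + (6) * w ^ 3 * r + (6) * w ^ 3 * β + (18) * w ^ 3 * β * r) * hw

end Cub3N

/-- **L9-CUB3** -/
theorem cub3N : S_CUB3N := by
  intro _ I hI k b B r hB h1 h2
  obtain ⟨β, hb⟩ := hB
  have eB : B = 1 + 3 * β := by linear_combination hb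
  rw [eB] at h1 h2 ⊢
  obtain ⟨ε, z, hε, hz⟩ := Cub3N.main k b β r h1 h2
  have hfix : ∀ z : Ei, ∀ τ : Au 3, τ I = I → τ (ev I hI z) = ev I hI z :=
    fun z τ hτ => ev_fix hI hτ z
  obtain ⟨s, hs, hs0, hsf⟩ := root hI (c := ev I hI (1 + 9 * z)) (hfix _) (by
    rw [map_add, map_one, add_sub_cancel_left]
    exact norm_nine hI z)
  have hl0 : ev I hI lam ≠ 0 := by
    intro h0
    have h4 : (lam : Ei) ^ 4 = 9 := by decide
    have h5 := congrArg (ev I hI) h4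
    rw [map_pow, h0, zero_pow (by norm_num), map_ofNat] at h5
    norm_num at h5
  refine ⟨s, 1, ev I hI ε * (ev I hI lam)⁻¹, ⟨fun τ hτ => ⟨hsf τ hτ, map_one τ, ?_⟩,
    Or.inl hs0, ?_⟩⟩
  · rw [map_mul, map_inv₀, hfix _ τ hτ, hfix _ τ hτ]
  · have h4 : (9 : Ei) = lam ^ 3 * lam := by decide
    have h9 : ev I hI (9 * (w ^ k.val * (1 + 3 * r))) * (ev I hI ε * (ev I hI lam)⁻¹) ^ 3 =
        ev I hI (lam * (w ^ k.val * (1 + 3 * r))) * ev I hI ε := by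
      have e1 : ev I hI (9 * (w ^ k.val * (1 + 3 * r))) =
          ev I hI lam ^ 3 * ev I hI (lam * (w ^ k.val * (1 + 3 * r))) := by
        rw [← map_pow, ← map_mul]
        congr 1
        rw [h4]
        ring
      have e2 : (ev I hI ε * (ev I hI lam)⁻¹) ^ 3 = ev I hI ε * (ev I hI lam ^ 3)⁻¹ := by
        rw [mul_pow, ← map_pow, hε, inv_pow]
      have e3 : ev I hI lam ^ 3 * (ev I hI lam ^ 3)⁻¹ = 1 := mul_inv_cancel₀ (pow_ne_zero _ hl0)
      rw [e1, e2]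
      linear_combination (ev I hI (lam * (w ^ k.val * (1 + 3 * r))) * ev I hI ε) * e3
    rw [hs, ← hz, map_add, map_mul (ev I hI) _ ε, map_mul (ev I hI) (w ^ b.val * (1 + 3 * β)) (lam * _),
      map_pow]
    linear_combination (-(ev I hI (w ^ b.val * (1 + 3 * β)))) * h9

end Pool.Agent.D0H10.L9
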