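import Pool.Agent.D0H10.L3.SelcT
import Pool.Agent.D0H10.L9.RamcN

/-!
# Project L9, module N3 SELCN (helper10): a nontrivial kernel gives a nontrivial Selmer class

Adapted from `Pool/Agent/D0H10/L3/SelcT.lean`.
-/

set_option autoImplicit false
set_option linter.unusedSectionVars false

open scoped Classical

namespace Pool.Agent.D0H10.L9

open Pool.Agent.Y692.QS (Ei w nr)
open Pool.Agent.Y715.T.Gi Pool.Agent.Y715.T.Nr Pool.Agent.Y715.T.Df
open Pool.Agent.Y715.T.Rec (cs)
open Pool.Agent.Y715.T.RecG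
open Pool.Agent.Y715.T.Sel (kc_mul kc_one kc_congr kc_pow kc_uniq kc_exp ex_root root_ne
  iota_sq iota_ev odd_of not_dvd_of_unr i₀_mod exists_emb3 kc_unit norm_three_one)
open Pool.Agent.Y48.CT.SEL (p0 pr0 esq prod_form cf_prod not_assoc_lam)
open Pool.Agent.Y155.CT (a_mul a_cont)
open Pool.Agent.Y703.CT
open Pool.Agent.Y363.CT.SELC (exists_tw not_lt_prod)
open Pool.Agent.Y180.CT (fin_of)
open Pool.Agent.N883.FF (nq)
open Pool.Agent.N883.FF.Sel (w_unit w_ne cf_unit unit_norm)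
open Pool.Agent.D0H43.L3 (yq)
open Pool.Agent.D0H43.L9
open Pool.Agent.D0H43.L3.Sel (gen gen_ne kc_gen gen_mul_pow cf_gen)
open Pool.Agent.D0H43.L3.Chi (yq_mul yq_unit)
open Pool.Agent.N883.FF.Chi (nq_mul nq_unit)
open Pool.Agent.D0H43.L3.Supp (cop_prim)
open RamcN (pN_ne)

namespace SelcN

variable {J : Type} [Fintype J] {π : J → Ei} {e : J → ZMod 3}
variable {i₀ : QB} {hi : i₀ ^ 2 + i₀ + 1 = 0}

/-- functions that are additive on the elements prime to three -/
lemma add_prod (g : Ei → ZMod 3) (g1 : g 1 = 0)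
    (gm : ∀ x y : Ei, IsCoprime x 3 → IsCoprime y 3 → g (x * y) = g x + g y)
    (h : ∀ j, IsCoprime (π j) 3) (f : J → ℕ) (S : Finset J) :
    g (∏ j ∈ S, π j ^ f j) = ∑ j ∈ S, (f j : ZMod 3) * g (π j) := by
  have hpow : ∀ (x : Ei), IsCoprime x 3 → ∀ n : ℕ, g (x ^ n) = n * g x := by
    intro x hx n
    induction n with
    | zero => rw [pow_zero, g1, Nat.cast_zero, zero_mul]
    | succ n ih =>
      rw [pow_succ, gm _ _ hx.pow_left hx, ih]
      push_cast
      ring
  induction S using Finset.induction_on with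
  | empty => rw [Finset.prod_empty, Finset.sum_empty, g1]
  | insert a S ha ih =>
    rw [Finset.prod_insert ha, Finset.sum_insert ha, gm _ _ (h a).pow_left
      (IsCoprime.prod_left fun j _ => (h j).pow_left), ih, hpow _ (h a)]

lemma pN_eq (i : ZMod 3) : pN π e i = gen π i.val 4 (fun j => (e j).val) := by
  have h9 : (9 : Ei) = lam ^ 4 := by decide
  unfold pN gen pD
  rw [h9]
  ring

lemma pN_norm (hD : Dt π e) (i : ZMod 3) {p : ℕ} [Fact p.Prime] (hp : p ≠ 3)
    (ι : QB →ₐ[ℚ] PadicAlgCl p)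
    (h : ∀ j, ¬ ‖ι (ev i₀ hi (π j))‖ < 1) : ¬ ‖ι (ev i₀ hi (pN π e i))‖ < 1 := by
  have h1 : ∀ j, ‖ι (ev i₀ hi (π j))‖ = 1 := by
    intro j
    refine le_antisymm ?_ (not_lt.1 (h j))
    rw [iota_ev]
    exact ev_le (iota_sq hi ι) _
  have h9 : (9 : Ei) = 3 ^ 2 := by norm_num
  have h2 : ‖ι (ev i₀ hi (pN π e i))‖ = 1 := by
    unfold pN pD
    rw [h9, map_mul, map_pow, map_ofNat, map_mul, map_pow, map_ofNat, norm_mul, norm_pow,
      norm_three_one hp, one_pow, one_mul,
      map_mul, map_pow, map_prod, map_mul, map_pow, map_prod, norm_mul, norm_pow, unit_norm,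
      one_pow, one_mul, norm_prod]
    refine Finset.prod_eq_one fun j _ => ?_
    rw [map_pow, map_pow, norm_pow, h1, one_pow]
  rw [h2]
  exact lt_irrefl _

end SelcN

open SelcN

/-- **L9-SELC.** -/
theorem selcN : S_SELCN := by
  intro hFF hCUB hCUB3 hPT hRAMC J _ π e i hD hker i₀ hi u a hTw hsel
  have hker' : ∃ (v : J → ZMod 3) (b : ZMod 3), (∀ j, ∑ k, e k * cs (π j) (π k) * (v k - v j) +
      b * nq (π j) = qN i (π j) * v j) ∧ ∑ k, e k * v k * nq (π k) = i * b ∧
      ¬ ((∀ j, v j = 0) ∧ b = 0) := by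
    by_contra hcon
    apply hker
    intro v b hv hb
    by_contra hne
    exact hcon ⟨v, b, hv, hb, hne⟩
  obtain ⟨v, b, hv, hb2, hne⟩ := hker'
  set B : Ei := w ^ b.val * ∏ j, π j ^ (e j * v j).val with hB
  have hB0 : B ≠ 0 := mul_ne_zero (pow_ne_zero _ w_ne) (pr0 hD _)
  have hD0 : pN π e i ≠ 0 := pN_ne hD i
  obtain ⟨β, a', hTw'⟩ := exists_tw (hi := hi) B
  have hm : ∀ σ τ : GK i₀, -a' (σ * τ) = -a' σ + -a' τ := by
    intro σ τ
    rw [a_mul hB0 hTw' σ τ]
    ring
  have hc : IsLocallyConstant (fun σ : GK i₀ => -a' σ) :=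
    (a_cont hB0 hTw').comp (fun c : ZMod 3 => -c)
  have hKc : Kc hi B (fun σ => -a' σ) :=
    kc_of hi (root_ne (hi := hi) hB0 hTw'.cube) hTw'.cube hTw'.act
  -- the conditions at three
  have hcop : ∀ j, IsCoprime (π j) 3 := fun j => cop_prim (hD.pq j).three
  have nprod := add_prod nq (nq_unit isUnit_one) (fun x y hx hy => nq_mul hx hy) hcop
  have yprod := add_prod yq (yq_unit isUnit_one) (fun x y hx hy => yq_mul hx hy) hcop
  obtain ⟨r, hr⟩ := prod_form hD (fun j => (e j).val)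
  have hr' : pD π e = 1 + 3 * r := by
    unfold pD
    rw [← hr]
    ring
  have c1 : nq (∏ j, π j ^ (e j * v j).val) = i * b := by
    rw [nprod, ← hb2]
    refine Finset.sum_congr rfl fun j _ => ?_
    rw [ZMod.natCast_zmod_val]
  have c2 : b * nq (1 + 3 * r) = qN i (∏ j, π j ^ (e j * v j).val) := by
    have e1 : qN i (∏ j, π j ^ (e j * v j).val) = ∑ j, e j * (qN i (π j) * v j) := by
      unfold qN
      rw [nprod, yprod, Finset.mul_sum, ← Finset.sum_sub_distrib]
      refine Finset.sum_congr rfl fun j _ => ?_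
      rw [ZMod.natCast_zmod_val]
      ring
    have e2 : nq (1 + 3 * r) = ∑ j, e j * nq (π j) := by
      rw [← hr']
      unfold pD
      rw [nprod]
      refine Finset.sum_congr rfl fun j _ => ?_
      rw [ZMod.natCast_zmod_val]
    have e3 : ∑ j, e j * (qN i (π j) * v j) =
        ∑ j, e j * ∑ k, e k * cs (π j) (π k) * (v k - v j) + b * ∑ j, e j * nq (π j) := by
      rw [Finset.mul_sum, ← Finset.sum_add_distrib]
      refine Finset.sum_congr rfl fun j _ => ?_
      rw [← hv j]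
      ring
    rw [e1, e2, e3, Pool.Agent.N883.FF.Selc.sum_zero hD v, zero_add]
  have hloc : ∀ (p : ℕ) [Fact p.Prime] (ι : QB →ₐ[ℚ] PadicAlgCl p),
      ∃ R, St1 hi ι a (fun σ => -a' σ) R := by
    intro p _ ι
    by_cases hp3 : p = 3
    · subst hp3
      refine hPT i₀ hi _ _ hB0 hD0 u a hTw _ hKc 3 ι ?_
      have h1 := hCUB3 inferInstance (ι i₀) (iota_sq' hi ι) i b _ r (prod_form hD _) c1 c2
      unfold pN
      rw [hr']
      exact h1
    · by_cases hj : ∃ j, ‖ι (ev i₀ hi (π j))‖ < 1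
      · obtain ⟨j, hj⟩ := hj
        exact hRAMC J π e i hD i₀ hi u a hTw v b _ hKc j (hv j) p ι hj
      · have hj' : ∀ j, ¬ ‖ev (ι i₀) (iota_sq' hi ι) (π j)‖ < 1 := by
          intro j h1
          apply hj
          refine ⟨j, ?_⟩
          rw [iota_ev]
          exact h1
        have hpB : ¬ ‖ev (ι i₀) (iota_sq' hi ι) (pN π e i)‖ < 1 := by
          intro h1
          refine pN_norm hD i hp3 ι (fun j h2 => hj ⟨j, h2⟩) (hi := hi) ?_
          rw [iota_ev]
          exact h1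
        have hB1 : ¬ ‖ev (ι i₀) (iota_sq' hi ι) B‖ < 1 := by
          have h2 : ‖ev (ι i₀) (iota_sq' hi ι) w‖ = 1 := by
            rw [← iota_ev hi ι, unit_norm]
          rw [hB, map_mul, map_pow, norm_mul, norm_pow, h2, one_pow, one_mul]
          exact not_lt_prod _ hj' _
        exact hPT i₀ hi _ _ hB0 hD0 u a hTw _ hKc p ι
          (hCUB hFF p hp3 (ι i₀) (iota_sq' hi ι) _ _ hB1 hpB)
  obtain ⟨c, hc'⟩ := hsel _ hc hm hloc
  -- the character `a`
  have hb : Kc hi (gen π i.val 4 (fun j => (e j).val)) (fun σ => -a σ) := by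
    rw [← pN_eq]
    exact kc_of hi (root_ne (hi := hi) (z := pN π e i) hD0 hTw.cube) hTw.cube hTw.act
  have hKc0 : Kc hi (gen π b.val 0 (fun j => (e j * v j).val)) (fun σ => -a' σ) := by
    have e1 : gen π b.val 0 (fun j => (e j * v j).val) = B := by
      unfold gen
      rw [pow_zero, one_mul]
    rw [e1]
    exact hKc
  have hy := kc_mul (gen_ne hD _ _ _) (pow_ne_zero c.val (gen_ne hD _ _ _)) hKc0
    (kc_pow (gen_ne hD _ _ _) hb c.val)
  rw [gen_mul_pow] at hy
  have g3 : (3 : ZMod 3) = 0 := rfl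
  have hy2 : Kc hi (gen π (b.val + i.val * c.val) c.val (fun k => (e k * (v k + c)).val))
      (fun σ => -a' σ + (c.val : ZMod 3) * -a σ) := by
    refine kc_gen (p0 hD) rfl ?_ (fun k => ?_) hy
    · push_cast
      rw [ZMod.natCast_zmod_val]
      linear_combination c * g3
    · push_cast
      rw [ZMod.natCast_zmod_val, ZMod.natCast_zmod_val, ZMod.natCast_zmod_val,
        ZMod.natCast_zmod_val]
      ring
  have hy3 : ∀ σ : GK i₀, -a' σ + (c.val : ZMod 3) * -a σ = 0 := by
    intro σ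
    have h1 : -a' σ = c * a σ := hc' σ
    rw [h1, ZMod.natCast_zmod_val]
    ring
  have hyj : ∀ j, e j * (v j + c) = 0 := by
    intro j
    obtain ⟨p, hp, ι, hl⟩ := exists_emb hi (hD.pq j).prime
    have hp3 := odd_of hi ι (hD.pq j).prime hl (not_assoc_lam (hD.pq j))
    have h1 := not_dvd_of_unr (cf_unit (w_unit.pow (b.val + i.val * c.val))
      (cf_gen hD c (fun k => e k * (v k + c)))) hy2 hp3 ι
      (hD.pq j).prime hl (fun τ σ _ _ => hy3 σ)
    by_contra hne'
    apply h1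
    refine Dvd.dvd.mul_left (Dvd.dvd.mul_left (dvd_trans (dvd_pow_self (π j) ?_)
      (Finset.dvd_prod_of_mem
      (fun k => π k ^ (e k * (v k + c)).val) (Finset.mem_univ j))) _) _
    rwa [Ne, ZMod.val_eq_zero]
  have hvj : ∀ j, v j = -c := by
    intro j
    have h2 := esq hD j
    have h3 : v j + c = 0 := by
      calc v j + c = (e j * e j) * (v j + c) := by rw [h2, one_mul]
        _ = e j * (e j * (v j + c)) := by ring
        _ = 0 := by rw [hyj, mul_zero]
    exact eq_neg_of_add_eq_zero_left h3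
  -- the prime above three
  have hprod : gen π (b.val + i.val * c.val) c.val (fun k => (e k * (v k + c)).val) =
      w ^ (b.val + i.val * c.val) * lam ^ c.val := by
    unfold gen
    have e1 : ∏ k, π k ^ (e k * (v k + c)).val = 1 := by
      refine Finset.prod_eq_one fun k _ => ?_
      rw [hyj k, ZMod.val_zero, pow_zero]
    rw [e1, mul_one]
  rw [hprod] at hy2
  obtain ⟨s, hs⟩ := ex_root (ev i₀ hi (w ^ (b.val + i.val * c.val) * lam ^ c.val))
  have hfix : ∀ σ : GK i₀, σ s = s := by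
    intro σ
    have h1 := hy2 s hs σ
    simp only [hy3 σ, ZMod.val_zero, pow_zero, one_mul] at h1
    exact h1
  obtain ⟨ι₃⟩ := exists_emb3
  have hmem : ι₃ s ∈ Pool.Agent.Y180.CT.Kl (ι₃ i₀) := by
    intro τ hτ
    obtain ⟨σ, hcm⟩ := exists_cmp ι₃ τ hτ
    rw [hcm, hfix]
  obtain ⟨hf1, hf2⟩ := fin_of (q := 0) hi ι₃ (w_unit.pow (b.val + i.val * c.val)) hmem (zero_mem _)
    (by rw [norm_zero]; exact zero_le_one)
    (by rw [mul_zero, add_zero, mul_one, mul_zero, add_zero, mul_one, ← map_pow, hs,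
      Pool.Agent.Y180.CT.iota_ev' hi ι₃])
  have hlt : c.val < 3 := ZMod.val_lt _
  have hval : c.val = 0 := by omega
  have hc0 : c = 0 := by rwa [ZMod.val_eq_zero] at hval
  subst hc0
  apply hne
  refine ⟨fun j => by rw [hvj, neg_zero], ?_⟩
  rw [ZMod.val_zero, mul_zero, add_zero] at hf2
  have key : ∀ b : ZMod 3, ((w : Ei) ^ b.val = 1 ∨ (w : Ei) ^ b.val = -1) → b = 0 := by decide
  exact key b hf2

end Pool.Agent.D0H10.L9
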